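import Pool.Agent.H722.Med.EncF

/-! Every effectively closed subset of Cantor space is Medvedev equivalent to the immortal set of
a Turing machine. The definitions used in the statement are in `Pool.Agent.H722.Med.Defs`. -/

namespace Pool.Agent.Results.MP_4596be_lc.EveryDegree

open Pool.Agent.H722.MedDefs Pool.Agent.H722.Med

/-- For every `Π⁰₁` set `P` of points of Cantor space there is a Turing machine whose immortal set
has the Medvedev degree of `P`. -/
theorem result (P : Set (ℕ → Bool)) (h : IsPi01 P) : ∃ M : TM, MedEquiv M.immSet P := by
  obtain ⟨M, hQ, hW, h1, h2⟩ := exists_machine h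
  exact ⟨mkTM (sysOf M), enc_med M P h1, dec_med M P h2⟩

end Pool.Agent.Results.MP_4596be_lc.EveryDegree
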